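import Mathlib

/-!
# Moving the centre of the weight `‖w - p‖ ^ (-d)` (Apollonius disks and layer cake)
-/

set_option linter.unusedVariables false

namespace Pool.Agent.Helper39.G2

open MeasureTheory Set Metric

/-- Layer cake bound: a set of area at most `π ρ ^ 2` has weight at most that of the disk. -/
theorem weight_le {d : ℝ} (hd0 : 0 < d) (hd2 : d < 2) (p : ℂ) (E : Set ℂ) {ρ : ℝ} (hρ : 0 < ρ)
    (hE : volume E ≤ ENNReal.ofReal (Real.pi * ρ ^ 2)) :
    ∫⁻ w in E, ENNReal.ofReal (‖w - p‖ ^ (-d)) ≤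
      ENNReal.ofReal (2 * Real.pi / (2 - d) * ρ ^ (2 - d)) := by
  have hmeas : Measurable fun w : ℂ => ‖w - p‖ ^ (-d) := by
    fun_prop
  rw [lintegral_eq_lintegral_meas_lt (volume.restrict E)
    (Filter.Eventually.of_forall fun w => Real.rpow_nonneg (norm_nonneg _) _) hmeas.aemeasurable]
  set c : ℝ := ρ ^ (-d) with hc
  have hc0 : 0 < c := Real.rpow_pos_of_pos hρ _
  have hsplit : (Ioi (0 : ℝ)) = Ioc 0 c ∪ Ioi c := (Ioc_union_Ioi_eq_Ioi hc0.le).symm
  rw [hsplit]
  refine (lintegral_union_le _ _ _).trans ?_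
  have h1 : ∫⁻ t in Ioc (0 : ℝ) c, (volume.restrict E) {a : ℂ | t < ‖a - p‖ ^ (-d)} ≤
      ENNReal.ofReal (Real.pi * ρ ^ 2 * c) := by
    calc ∫⁻ t in Ioc (0 : ℝ) c, (volume.restrict E) {a : ℂ | t < ‖a - p‖ ^ (-d)}
        ≤ ∫⁻ t in Ioc (0 : ℝ) c, ENNReal.ofReal (Real.pi * ρ ^ 2) := by
          refine lintegral_mono fun t => ?_
          refine (measure_mono (subset_univ _)).trans ?_
          rw [Measure.restrict_apply_univ]
          exact hE
      _ = ENNReal.ofReal (Real.pi * ρ ^ 2 * c) := by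
          rw [lintegral_const, Measure.restrict_apply_univ, Real.volume_Ioc,
            ← ENNReal.ofReal_mul (by positivity), sub_zero]
  have h2 : ∫⁻ t in Ioi c, (volume.restrict E) {a : ℂ | t < ‖a - p‖ ^ (-d)} ≤
      ENNReal.ofReal (Real.pi * (d / (2 - d)) * ρ ^ (2 - d)) := by
    calc ∫⁻ t in Ioi c, (volume.restrict E) {a : ℂ | t < ‖a - p‖ ^ (-d)}
        ≤ ∫⁻ t in Ioi c, ENNReal.ofReal (Real.pi * t ^ (-(2 / d))) := by
          refine setLIntegral_mono (by fun_prop) fun t ht => ?_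
          have ht0 : 0 < t := lt_trans hc0 ht
          refine (Measure.restrict_apply_le _ _).trans ?_
          have hsub : {a : ℂ | t < ‖a - p‖ ^ (-d)} ⊆ ball p (t ^ (-(1 / d))) := by
            intro a ha
            simp only [mem_ofPred_eq] at ha
            rw [mem_ball, dist_eq_norm]
            by_contra hcon
            push Not at hcon
            have hr0 : 0 < t ^ (-(1 / d)) := Real.rpow_pos_of_pos ht0 _
            have h3 : ‖a - p‖ ^ (-d) ≤ (t ^ (-(1 / d))) ^ (-d) :=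
              Real.rpow_le_rpow_of_nonpos hr0 hcon (by linarith)
            rw [← Real.rpow_mul ht0.le, neg_mul_neg, one_div_mul_cancel hd0.ne', Real.rpow_one] at h3
            linarith
          refine (measure_mono hsub).trans ?_
          rw [Complex.volume_ball]
          have h4 : (t ^ (-(1 / d))) ^ 2 = t ^ (-(2 / d)) := by
            rw [← Real.rpow_natCast, ← Real.rpow_mul ht0.le]
            congr 1
            push_cast
            ring
          rw [← ENNReal.ofReal_pow (Real.rpow_nonneg ht0.le _), h4, mul_comm Real.pi,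
            ENNReal.ofReal_mul (Real.rpow_nonneg ht0.le _)]
          gcongr
          rw [← NNReal.coe_real_pi, ENNReal.ofReal_coe_nnreal]
      _ = ENNReal.ofReal (∫ t in Ioi c, Real.pi * t ^ (-(2 / d))) := by
          rw [ofReal_integral_eq_lintegral_ofReal]
          · refine (integrableOn_Ioi_rpow_of_lt ?_ hc0).const_mul _
            rw [neg_lt_neg_iff, lt_div_iff₀ hd0]
            linarith
          · filter_upwards [ae_restrict_mem measurableSet_Ioi] with t ht
            have : 0 < t := lt_trans hc0 ht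
            positivity
      _ = ENNReal.ofReal (Real.pi * (d / (2 - d)) * ρ ^ (2 - d)) := by
          rw [integral_const_mul, integral_Ioi_rpow_of_lt (by
            rw [neg_lt_neg_iff, lt_div_iff₀ hd0]
            linarith) hc0]
          congr 1
          have h5 : c ^ (-(2 / d) + 1) = ρ ^ (2 - d) := by
            rw [hc, ← Real.rpow_mul hρ.le]
            congr 1
            field_simp
            ring
          rw [h5]
          have h6 : (2 - d) ≠ 0 := by linarith
          have h7 : -(2 / d) + 1 ≠ 0 := by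
            intro h8
            have : (2 / d) = 1 := by linarith
            rw [div_eq_one_iff_eq hd0.ne'] at this
            linarith
          have h9 : -(2 / d) + 1 = -((2 - d) / d) := by
            field_simp
            ring
          rw [h9]
          field_simp
  refine (add_le_add h1 h2).trans ?_
  rw [← ENNReal.ofReal_add (by positivity) (by
    have : 0 < 2 - d := by linarith
    positivity)]
  refine le_of_eq ?_
  congr 1
  have h10 : ρ ^ 2 * c = ρ ^ (2 - d) := by
    rw [hc, sub_eq_add_neg, Real.rpow_add hρ, ← Real.rpow_natCast]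
    norm_num
  have h6 : (2 - d) ≠ 0 := by linarith
  rw [mul_assoc, h10]
  field_simp
  ring

/-- The Apollonius disk. -/
theorem apollonius {p q : ℂ} {k : ℝ} (hk : 1 < k) :
    {w : ℂ | k * ‖w - q‖ < ‖w - p‖} ⊆
      ball (q + ((1 / (k ^ 2 - 1) : ℝ) : ℂ) * (q - p)) (‖p - q‖ * (k / (k ^ 2 - 1))) := by
  intro w hw
  simp only [mem_ofPred_eq] at hw
  rw [mem_ball, dist_eq_norm]
  have hk2 : 0 < k ^ 2 - 1 := by nlinarith
  have h1 : (k * ‖w - q‖) ^ 2 < ‖w - p‖ ^ 2 := by
    have : 0 ≤ k * ‖w - q‖ := by positivity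
    exact pow_lt_pow_left₀ hw this two_ne_zero
  refine lt_of_pow_lt_pow_left₀ 2 (by positivity) ?_
  rw [mul_pow] at h1
  rw [mul_pow]
  rw [Complex.sq_norm, Complex.sq_norm, Complex.normSq_apply, Complex.normSq_apply] at h1
  rw [Complex.sq_norm, Complex.sq_norm, Complex.normSq_apply, Complex.normSq_apply]
  simp only [Complex.sub_re, Complex.sub_im, Complex.add_re, Complex.add_im,
    Complex.re_ofReal_mul, Complex.im_ofReal_mul] at h1 ⊢
  obtain ⟨x, y⟩ := w
  obtain ⟨a, b⟩ := p
  obtain ⟨e, f⟩ := q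
  simp only at h1 ⊢
  have hne : (k ^ 2 - 1) ≠ 0 := hk2.ne'
  rw [div_pow]
  rw [show (x - (e + 1 / (k ^ 2 - 1) * (e - a))) * (x - (e + 1 / (k ^ 2 - 1) * (e - a))) +
      (y - (f + 1 / (k ^ 2 - 1) * (f - b))) * (y - (f + 1 / (k ^ 2 - 1) * (f - b))) =
      (((x - e) * (k ^ 2 - 1) - (e - a)) ^ 2 + ((y - f) * (k ^ 2 - 1) - (f - b)) ^ 2) /
        (k ^ 2 - 1) ^ 2 by
    field_simp
    ring,
    ← mul_div_assoc]
  refine div_lt_div_of_pos_right ?_ (by positivity)
  nlinarith [mul_lt_mul_of_pos_left h1 hk2]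

/-- `sinh`-type estimate: `e ^ x / (e ^ (2 x) - 1) <= 1 / (2 x)`. -/
theorem k_bound {x : ℝ} (hx : 0 < x) :
    Real.exp x / (Real.exp x ^ 2 - 1) ≤ 1 / (2 * x) := by
  have h1 : x < Real.sinh x := by
    rw [Real.self_lt_sinh_iff]
    exact hx
  have h2 : Real.exp x ^ 2 - 1 = Real.exp x * (2 * Real.sinh x) := by
    rw [Real.sinh_eq, Real.exp_neg]
    field_simp
  rw [h2, div_mul_eq_div_div, div_self (Real.exp_pos x).ne']
  exact one_div_le_one_div_of_le (by positivity) (by linarith)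

/-- The area of the Apollonius disk. -/
theorem volume_apollonius {p q : ℂ} {s x : ℝ} (hs : ‖p - q‖ ≤ s) (hx : 0 < x) :
    volume {w : ℂ | Real.exp x * ‖w - q‖ < ‖w - p‖} ≤
      ENNReal.ofReal (Real.pi * (s / 2 / x) ^ 2) := by
  have hs0 : 0 ≤ s := (norm_nonneg _).trans hs
  have hk : 1 < Real.exp x := by
    rw [Real.one_lt_exp_iff]
    exact hx
  have hk2 : 0 < Real.exp x ^ 2 - 1 := by nlinarith
  refine (measure_mono (apollonius hk)).trans ?_
  rw [Complex.volume_ball, mul_comm Real.pi,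
    ENNReal.ofReal_mul (p := (s / 2 / x) ^ 2) (by positivity),
    ← ENNReal.ofReal_pow (by positivity)]
  have h1 : ‖p - q‖ * (Real.exp x / (Real.exp x ^ 2 - 1)) ≤ s / 2 / x := by
    calc ‖p - q‖ * (Real.exp x / (Real.exp x ^ 2 - 1)) ≤ s * (1 / (2 * x)) :=
          mul_le_mul hs (k_bound hx) (by positivity) hs0
      _ = s / 2 / x := by
          field_simp
  have h2 : ((NNReal.pi : NNReal) : ENNReal) = ENNReal.ofReal Real.pi := by
    rw [← NNReal.coe_real_pi, ENNReal.ofReal_coe_nnreal]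
  rw [h2]
  gcongr

/-- pointwise bound -/
theorem pointwise {d m u v : ℝ} (hd0 : 0 < d) (hu : 0 < u) (hv : 0 < v) :
    v ^ (-d) ≤ Real.exp (d * m) * u ^ (-d) +
      d * (v ^ (-d) * max (Real.log (u / v) - m) 0) := by
  have h1 : u ^ (-d) = v ^ (-d) * Real.exp (-(d * Real.log (u / v))) := by
    rw [Real.log_div hu.ne' hv.ne', Real.rpow_def_of_pos hu, Real.rpow_def_of_pos hv,
      ← Real.exp_add]
    congr 1
    ring
  have h2 : 0 < v ^ (-d) := Real.rpow_pos_of_pos hv _
  set L := Real.log (u / v) with hL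
  rw [h1]
  have h3 : 1 ≤ Real.exp (d * m) * Real.exp (-(d * L)) + d * max (L - m) 0 := by
    rw [← Real.exp_add]
    have h4 := Real.add_one_le_exp (d * m + -(d * L))
    have h5 : d * (L - m) ≤ d * max (L - m) 0 := by
      gcongr
      exact le_max_left _ _
    nlinarith
  calc v ^ (-d) = v ^ (-d) * 1 := (mul_one _).symm
    _ ≤ v ^ (-d) * (Real.exp (d * m) * Real.exp (-(d * L)) + d * max (L - m) 0) := by
        gcongr
    _ = _ := by ring

/-- The weighted excess of the logarithm. -/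
theorem excess_le {d m s : ℝ} (hd0 : 0 < d) (hd1 : d < 1) (hm : 0 < m) {p q : ℂ}
    (hs : ‖p - q‖ ≤ s) (hs0 : 0 < s) (Q : Set ℂ) :
    ∫⁻ w in Q, ENNReal.ofReal (‖w - q‖ ^ (-d) *
        max (Real.log (‖w - p‖ / ‖w - q‖) - m) 0) ≤
      ENNReal.ofReal (2 * Real.pi / (2 - d) * (s / 2) ^ (2 - d) *
        (m ^ (-(1 - d)) / (1 - d))) := by
  have hw : Measurable fun w : ℂ => ENNReal.ofReal (‖w - q‖ ^ (-d)) := by fun_prop
  have hL : Measurable fun w : ℂ => max (Real.log (‖w - p‖ / ‖w - q‖) - m) 0 := by fun_prop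
  have h1 : ∫⁻ w in Q, ENNReal.ofReal (‖w - q‖ ^ (-d) *
        max (Real.log (‖w - p‖ / ‖w - q‖) - m) 0) =
      ∫⁻ w, ENNReal.ofReal (max (Real.log (‖w - p‖ / ‖w - q‖) - m) 0)
        ∂((volume.restrict Q).withDensity fun w => ENNReal.ofReal (‖w - q‖ ^ (-d))) := by
    rw [lintegral_withDensity_eq_lintegral_mul _ hw hL.ennreal_ofReal]
    refine lintegral_congr fun w => ?_
    rw [Pi.mul_apply, ENNReal.ofReal_mul (Real.rpow_nonneg (norm_nonneg _) _)]
  rw [h1, lintegral_eq_lintegral_meas_lt _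
    (f := fun w : ℂ => max (Real.log (‖w - p‖ / ‖w - q‖) - m) 0)
    (Filter.Eventually.of_forall fun w => le_max_right _ _) hL.aemeasurable]
  have h2 : ∀ t ∈ Ioi (0 : ℝ),
      ((volume.restrict Q).withDensity fun w => ENNReal.ofReal (‖w - q‖ ^ (-d)))
        {a : ℂ | t < max (Real.log (‖a - p‖ / ‖a - q‖) - m) 0} ≤
      ENNReal.ofReal (2 * Real.pi / (2 - d) * (s / 2 / (m + t)) ^ (2 - d)) := by
    intro t ht
    have ht0 : 0 < t := ht
    have hms : MeasurableSet {a : ℂ | t < max (Real.log (‖a - p‖ / ‖a - q‖) - m) 0} :=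
      measurableSet_lt measurable_const hL
    rw [withDensity_apply _ hms]
    have h3 : ∫⁻ a in {a : ℂ | t < max (Real.log (‖a - p‖ / ‖a - q‖) - m) 0},
        ENNReal.ofReal (‖a - q‖ ^ (-d)) ∂(volume.restrict Q) ≤
        ∫⁻ a in {a : ℂ | t < max (Real.log (‖a - p‖ / ‖a - q‖) - m) 0},
        ENNReal.ofReal (‖a - q‖ ^ (-d)) := by
      refine lintegral_mono' ?_ le_rfl
      exact Measure.restrict_mono le_rfl Measure.restrict_le_self
    refine h3.trans ?_
    refine weight_le hd0 (by linarith) q _ (by positivity) ?_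
    refine (measure_mono ?_).trans (volume_apollonius hs (by positivity : 0 < m + t))
    intro a ha
    simp only [mem_ofPred_eq] at ha ⊢
    have h4 : t < Real.log (‖a - p‖ / ‖a - q‖) - m := by
      rcases lt_max_iff.mp ha with h | h
      · exact h
      · linarith
    have h5 : 0 < Real.log (‖a - p‖ / ‖a - q‖) := by linarith
    have h6 : 0 < ‖a - p‖ / ‖a - q‖ := by
      by_contra hcon
      have h7 : 0 ≤ ‖a - p‖ / ‖a - q‖ := by positivity
      have h8 : ‖a - p‖ / ‖a - q‖ = 0 := le_antisymm (not_lt.mp hcon) h7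
      rw [h8, Real.log_zero] at h5
      exact lt_irrefl _ h5
    have h9 : 0 < ‖a - q‖ := by
      by_contra hcon
      have h10 : ‖a - q‖ = 0 := le_antisymm (not_lt.mp hcon) (norm_nonneg _)
      rw [h10, div_zero] at h6
      exact lt_irrefl _ h6
    have h11 : Real.exp (m + t) < ‖a - p‖ / ‖a - q‖ := by
      rw [← Real.lt_log_iff_exp_lt h6]
      linarith
    rwa [lt_div_iff₀ h9] at h11
  refine (setLIntegral_mono' measurableSet_Ioi h2).trans ?_
  have h3 : ∀ t ∈ Ioi (0 : ℝ), 2 * Real.pi / (2 - d) * (s / 2 / (m + t)) ^ (2 - d) =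
      2 * Real.pi / (2 - d) * (s / 2) ^ (2 - d) * (t + m) ^ (-(2 - d)) := by
    intro t ht
    have ht0 : 0 < t := ht
    rw [Real.div_rpow (by positivity) (by positivity), Real.rpow_neg (by positivity),
      add_comm m t]
    ring
  have h2d : 0 < 2 - d := by linarith
  refine le_of_eq ?_
  calc ∫⁻ t in Ioi (0 : ℝ), ENNReal.ofReal (2 * Real.pi / (2 - d) * (s / 2 / (m + t)) ^ (2 - d))
      = ∫⁻ t in Ioi (0 : ℝ), ENNReal.ofReal
          (2 * Real.pi / (2 - d) * (s / 2) ^ (2 - d) * (t + m) ^ (-(2 - d))) :=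
        setLIntegral_congr_fun measurableSet_Ioi fun t ht => by rw [h3 t ht]
    _ = ENNReal.ofReal (∫ t in Ioi (0 : ℝ),
          2 * Real.pi / (2 - d) * (s / 2) ^ (2 - d) * (t + m) ^ (-(2 - d))) := by
        rw [ofReal_integral_eq_lintegral_ofReal]
        · refine Integrable.const_mul ?_ _
          exact integrableOn_add_rpow_Ioi_of_lt (by linarith) (by linarith)
        · filter_upwards [ae_restrict_mem measurableSet_Ioi] with t ht
          have ht0 : 0 < t := ht
          positivity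
    _ = _ := by
        rw [integral_const_mul]
        congr 2
        have h4 : ∫ t in Ioi (0 : ℝ), (t + m) ^ (-(2 - d)) =
            ∫ t in Ioi m, t ^ (-(2 - d)) := by
          rw [← integral_indicator measurableSet_Ioi, ← integral_indicator measurableSet_Ioi,
            ← integral_add_right_eq_self ((Ioi m).indicator fun t : ℝ => t ^ (-(2 - d))) m]
          refine integral_congr_ae (Filter.Eventually.of_forall fun t => ?_)
          by_cases ht : 0 < t
          · have ht' : m < t + m := by linarith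
            simp only [indicator, mem_Ioi, ht, ht', if_true]
          · have ht' : ¬ m < t + m := by linarith
            simp only [indicator, mem_Ioi, ht, ht', if_false]
        rw [h4, integral_Ioi_rpow_of_lt (by linarith) hm]
        have h5 : -(2 - d) + 1 = -(1 - d) := by ring
        rw [h5]
        have h6 : (1 - d) ≠ 0 := by linarith
        field_simp

/-- Moving the centre of the weight, `lintegral` form. -/
theorem shift_lintegral {d m s : ℝ} (hd0 : 0 < d) (hd1 : d < 1) (hm : 0 < m) {p q : ℂ}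
    (hs : ‖p - q‖ ≤ s) (hs0 : 0 < s) (Q : Set ℂ) :
    ∫⁻ w in Q, ENNReal.ofReal (‖w - q‖ ^ (-d)) ≤
      ENNReal.ofReal (Real.exp (d * m)) * (∫⁻ w in Q, ENNReal.ofReal (‖w - p‖ ^ (-d))) +
      ENNReal.ofReal (d * (2 * Real.pi / (2 - d) * (s / 2) ^ (2 - d) *
        (m ^ (-(1 - d)) / (1 - d)))) := by
  have h1 : ∀ᵐ w ∂(volume.restrict Q), ENNReal.ofReal (‖w - q‖ ^ (-d)) ≤
      ENNReal.ofReal (Real.exp (d * m)) * ENNReal.ofReal (‖w - p‖ ^ (-d)) +
      ENNReal.ofReal d * ENNReal.ofReal (‖w - q‖ ^ (-d) *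
        max (Real.log (‖w - p‖ / ‖w - q‖) - m) 0) := by
    have hp : ∀ᵐ w ∂(volume.restrict Q), w ≠ p :=
      ae_restrict_of_ae (by simp [ae_iff])
    have hq : ∀ᵐ w ∂(volume.restrict Q), w ≠ q :=
      ae_restrict_of_ae (by simp [ae_iff])
    filter_upwards [hp, hq] with w hwp hwq
    have h2 : 0 < ‖w - p‖ := norm_pos_iff.mpr (sub_ne_zero.mpr hwp)
    have h3 : 0 < ‖w - q‖ := norm_pos_iff.mpr (sub_ne_zero.mpr hwq)
    rw [← ENNReal.ofReal_mul (Real.exp_pos _).le, ← ENNReal.ofReal_mul hd0.le,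
      ← ENNReal.ofReal_add (by positivity) (by positivity)]
    exact ENNReal.ofReal_le_ofReal (pointwise hd0 h2 h3)
  refine (lintegral_mono_ae h1).trans ?_
  have hm1 : Measurable fun w : ℂ => ENNReal.ofReal (Real.exp (d * m)) *
      ENNReal.ofReal (‖w - p‖ ^ (-d)) := by fun_prop
  have hm2 : Measurable fun w : ℂ => ENNReal.ofReal (‖w - p‖ ^ (-d)) := by fun_prop
  have hm3 : Measurable fun w : ℂ => ENNReal.ofReal (‖w - q‖ ^ (-d) *
        max (Real.log (‖w - p‖ / ‖w - q‖) - m) 0) := by fun_prop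
  rw [lintegral_add_left hm1, lintegral_const_mul _ hm2, lintegral_const_mul _ hm3,
    ENNReal.ofReal_mul hd0.le]
  exact add_le_add le_rfl (mul_le_mul_right (excess_le hd0 hd1 hm hs hs0 Q) _)

/-- finiteness of the weighted area of a set of finite area -/
theorem lintegral_ne_top {d : ℝ} (hd0 : 0 < d) (hd2 : d < 2) (p : ℂ) {Q : Set ℂ}
    (hQ : volume Q ≠ ⊤) :
    ∫⁻ w in Q, ENNReal.ofReal (‖w - p‖ ^ (-d)) ≠ ⊤ := by
  have hpi : 0 < Real.pi := Real.pi_pos
  set A := (volume Q).toReal with hA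
  have hA0 : 0 ≤ A := ENNReal.toReal_nonneg
  set ρ := Real.sqrt ((A + 1) / Real.pi) with hρ
  have hρ0 : 0 < ρ := Real.sqrt_pos.mpr (by positivity)
  have h1 : Real.pi * ρ ^ 2 = A + 1 := by
    rw [hρ, Real.sq_sqrt (by positivity)]
    field_simp
  refine ne_top_of_le_ne_top ENNReal.ofReal_ne_top (weight_le hd0 hd2 p Q hρ0 ?_)
  rw [h1, ← ENNReal.ofReal_toReal hQ]
  exact ENNReal.ofReal_le_ofReal (by linarith)

/-- integrability of the weight -/
theorem integrableOn_weight {d : ℝ} (hd0 : 0 < d) (hd2 : d < 2) (p : ℂ) {Q : Set ℂ}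
    (hQ : volume Q ≠ ⊤) : IntegrableOn (fun w => ‖w - p‖ ^ (-d)) Q := by
  have hm : Measurable fun w : ℂ => ‖w - p‖ ^ (-d) := by fun_prop
  refine ⟨hm.aestronglyMeasurable, ?_⟩
  rw [hasFiniteIntegral_iff_ofReal
    (Filter.Eventually.of_forall fun w => Real.rpow_nonneg (norm_nonneg _) _)]
  exact lt_top_iff_ne_top.mpr (lintegral_ne_top hd0 hd2 p hQ)

theorem ofReal_integral_weight {d : ℝ} (hd0 : 0 < d) (hd2 : d < 2) (p : ℂ) {Q : Set ℂ}
    (hQ : volume Q ≠ ⊤) :
    ENNReal.ofReal (∫ w in Q, ‖w - p‖ ^ (-d)) = ∫⁻ w in Q, ENNReal.ofReal (‖w - p‖ ^ (-d)) :=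
  ofReal_integral_eq_lintegral_ofReal (integrableOn_weight hd0 hd2 p hQ)
    (Filter.Eventually.of_forall fun w => Real.rpow_nonneg (norm_nonneg _) _)

/-- Moving the centre of the weight. -/
theorem shift {d m s : ℝ} (hd0 : 0 < d) (hd1 : d < 1) (hm : 0 < m) {p q : ℂ}
    (hs : ‖p - q‖ ≤ s) {Q : Set ℂ} (hQ : volume Q ≠ ⊤) :
    ∫ w in Q, ‖w - q‖ ^ (-d) ≤ Real.exp (d * m) * (∫ w in Q, ‖w - p‖ ^ (-d)) +
      d * (2 / (2 - d)) * (1 / (1 - d)) * (Real.pi * (s / 2) ^ (2 - d) * m ^ (-(1 - d))) := by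
  have hs0 : 0 ≤ s := (norm_nonneg _).trans hs
  have h2d : 0 < 2 - d := by linarith
  have h1d : 0 < 1 - d := by linarith
  rcases hs0.eq_or_lt with h0 | hs0
  · have hpq : p = q := by
      rw [← h0] at hs
      exact sub_eq_zero.mp (norm_le_zero_iff.mp hs)
    subst hpq
    rw [← h0, zero_div, Real.zero_rpow h2d.ne']
    have h1 : 1 ≤ Real.exp (d * m) := Real.one_le_exp (by positivity)
    have h2 : 0 ≤ ∫ w in Q, ‖w - p‖ ^ (-d) :=
      integral_nonneg fun w => Real.rpow_nonneg (norm_nonneg _) _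
    nlinarith
  · have h1 := shift_lintegral hd0 hd1 hm hs hs0 Q
    rw [← ofReal_integral_weight hd0 (by linarith) q hQ,
      ← ofReal_integral_weight hd0 (by linarith) p hQ,
      ← ENNReal.ofReal_mul (Real.exp_pos _).le, ← ENNReal.ofReal_add (mul_nonneg (Real.exp_pos _).le
        (integral_nonneg fun w => Real.rpow_nonneg (norm_nonneg _) _)) (by positivity),
      ENNReal.ofReal_le_ofReal_iff (add_nonneg (mul_nonneg (Real.exp_pos _).le
        (integral_nonneg fun w => Real.rpow_nonneg (norm_nonneg _) _)) (by positivity))] at h1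
    refine h1.trans (le_of_eq ?_)
    field_simp

end Pool.Agent.Helper39.G2
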